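import Pool.Agent.Lib.MP_abd978_an.Interfaces

/-!
# Project ABD: OSC, HCH, EQC
-/

set_option autoImplicit false

open MeasureTheory Metric Set Filter Topology ContDiff
open scoped Gradient RealInnerProductSpace

namespace Pool.Agent.Lib.MP_abd978_an.H72

variable {n : ℕ}

theorem grad_const_sub (f : E n → ℝ) (c : ℝ) (x : E n) :
    ∇ (fun y => c - f y) x = -∇ f x := by
  rw [grad_eq, grad_eq, fderiv_const_sub, map_neg]

theorem grad_sub_const (f : E n → ℝ) (c : ℝ) (x : E n) :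
    ∇ (fun y => f y - c) x = ∇ f x := by
  rw [grad_eq, grad_eq, fderiv_sub_const]

theorem isSob_sub_const {μ : Measure (E n)} {p : ℝ} {D : Set (E n)} {u : E n → ℝ}
    {v : E n → E n} (h : IsSob μ p D u v) (hD : μ D ≠ ⊤) (c : ℝ) :
    IsSob μ p D (fun x => u x - c) v := by
  haveI : IsFiniteMeasure (μ.restrict D) := ⟨by
    rw [Measure.restrict_apply_univ]
    exact hD.lt_top⟩
  obtain ⟨h1, h2, φ, h3, h4, h5⟩ := h
  refine ⟨h1.sub (memLp_const c), h2, fun i x => φ i x - c, fun i => (h3 i).sub contDiffOn_const,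
    ?_, ?_⟩
  · simpa using h4
  · simpa [grad_sub_const] using h5

theorem isSob_const_sub {μ : Measure (E n)} {p : ℝ} {D : Set (E n)} {u : E n → ℝ}
    {v : E n → E n} (h : IsSob μ p D u v) (hD : μ D ≠ ⊤) (c : ℝ) :
    IsSob μ p D (fun x => c - u x) (fun x => -v x) := by
  haveI : IsFiniteMeasure (μ.restrict D) := ⟨by
    rw [Measure.restrict_apply_univ]
    exact hD.lt_top⟩
  obtain ⟨h1, h2, φ, h3, h4, h5⟩ := h
  refine ⟨(memLp_const c).sub h1, h2.neg, fun i x => c - φ i x,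
    fun i => contDiffOn_const.sub (h3 i), ?_, ?_⟩
  · refine h4.congr fun i => ?_
    refine eLpNorm_congr_norm_ae (Eventually.of_forall fun x => ?_)
    show ‖φ i x - u x‖ = ‖c - φ i x - (c - u x)‖
    rw [← norm_neg]
    congr 1
    ring
  · refine h5.congr fun i => ?_
    refine eLpNorm_congr_norm_ae (Eventually.of_forall fun x => ?_)
    show ‖∇ (φ i) x - v x‖ = ‖∇ (fun y => c - φ i y) x - -v x‖
    rw [grad_const_sub, ← norm_neg]
    congr 1
    abel

theorem eqn_neg {p : ℝ} {μ : Measure (E n)} {a : E n → E n → E n} {α β : ℝ}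
    (hop : Op p μ a α β) {D : Set (E n)} {v : E n → E n} (h : Eqn μ a D v) :
    Eqn μ a D fun x => -v x := by
  intro φ hφ
  have h1 := h φ hφ
  have h2 : (fun x => ⟪a x (-v x), ∇ φ x⟫) = fun x => -⟪a x (v x), ∇ φ x⟫ := by
    funext x
    rw [hop.neg, inner_neg_left]
  rw [h2, integral_neg, h1, neg_zero]

theorem bsol_sub_const {p : ℝ} {μ : Measure (E n)} {a : E n → E n → E n} {D : Set (E n)}
    {u : E n → ℝ} {v : E n → E n} {c d : ℝ} (h : BSol μ p a D u v c d) (hD : μ D ≠ ⊤) (m : ℝ) :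
    BSol μ p a D (fun x => u x - m) v (c - m) (d - m) :=
  ⟨h.isOpen, isSob_sub_const h.sob hD m, fun x => ⟨by linarith [(h.mem x).1],
    by linarith [(h.mem x).2]⟩, h.eqn⟩

theorem bsol_const_sub {p : ℝ} {μ : Measure (E n)} {a : E n → E n → E n} {α β : ℝ}
    (hop : Op p μ a α β) {D : Set (E n)}
    {u : E n → ℝ} {v : E n → E n} {c d : ℝ} (h : BSol μ p a D u v c d) (hD : μ D ≠ ⊤) (m : ℝ) :
    BSol μ p a D (fun x => m - u x) (fun x => -v x) (m - d) (m - c) :=
  ⟨h.isOpen, isSob_const_sub h.sob hD m, fun x => ⟨by linarith [(h.mem x).2],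
    by linarith [(h.mem x).1]⟩, eqn_neg hop h.eqn⟩

theorem bsol_mono {p : ℝ} {μ : Measure (E n)} {a : E n → E n → E n} {D D' : Set (E n)}
    {u : E n → ℝ} {v : E n → E n} {c d : ℝ} (h : BSol μ p a D u v c d) (hD : D' ⊆ D)
    (ho : IsOpen D') : BSol μ p a D' u v c d :=
  ⟨ho, h.sob.mono hD, h.mem, h.eqn.mono hD⟩

theorem ball_lt_top {μ : Measure (E n)} (h : IsLocallyFiniteMeasure μ) (z : E n) (r : ℝ) :
    μ (ball z r) ≠ ⊤ := by
  haveI := h
  exact ((measure_mono ball_subset_closedBall).trans_lt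
    (isCompact_closedBall z r).measure_lt_top).ne

theorem osc (hd : DensStatement) : OscStatement := by
  intro n p μ a α β hop
  obtain ⟨l, hl0, hl1, hl⟩ := hd n p μ a α β hop (1 / 2) (by norm_num)
  refine ⟨l / 2, by linarith, by linarith, ?_⟩
  intro D u v m M z r hs hr hD
  have hz := hs.mem z
  rcases (hz.1.trans hz.2).eq_or_lt with hmM | hmM
  · exact ⟨m, M, le_rfl, hmM.le, le_rfl, by rw [hmM]; simp,
      Eventually.of_forall fun x => hs.mem x⟩
  have hlf := hop.lf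
  have hfin := ball_lt_top hlf z (5 * r)
  have hfin2 := ball_lt_top hlf z (2 * r)
  have hs1 : BSol μ p a (D ∩ ball z (5 * r)) u v m M :=
    bsol_mono hs inter_subset_left (hs.isOpen.inter isOpen_ball)
  have hf1 : μ (D ∩ ball z (5 * r)) ≠ ⊤ :=
    ((measure_mono inter_subset_right).trans_lt hfin.lt_top).ne
  have hc : closedBall z (4 * r) ⊆ D ∩ ball z (5 * r) :=
    subset_inter hD (closedBall_subset_ball (by linarith))
  have hk : 0 < (M - m) / 2 := by linarith
  by_cases hA : 1 / 2 * μ.real (ball z (2 * r)) ≤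
      μ.real {x | x ∈ ball z (2 * r) ∧ (M - m) / 2 ≤ u x - m}
  · have h1 := bsol_sub_const hs1 hf1 m
    rw [sub_self] at h1
    have h2 := hl _ _ _ _ ((M - m) / 2) z r h1 hr hc hk hA
    refine ⟨m + l * ((M - m) / 2), M, ?_, ?_, le_rfl, ?_, ?_⟩
    · nlinarith
    · nlinarith
    · nlinarith
    · filter_upwards [h2] with x hx
      exact ⟨by linarith, (hs.mem x).2⟩
  · have h1 := bsol_const_sub hop hs1 hf1 M
    rw [sub_self] at h1
    have hB : 1 / 2 * μ.real (ball z (2 * r)) ≤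
        μ.real {x | x ∈ ball z (2 * r) ∧ (M - m) / 2 ≤ M - u x} := by
      have h3 : μ.real (ball z (2 * r)) ≤
          μ.real {x | x ∈ ball z (2 * r) ∧ (M - m) / 2 ≤ u x - m} +
          μ.real {x | x ∈ ball z (2 * r) ∧ (M - m) / 2 ≤ M - u x} := by
        refine (measureReal_mono ?_ ?_).trans (measureReal_union_le _ _)
        · intro x hx
          by_cases h4 : (M - m) / 2 ≤ u x - m
          · exact Or.inl ⟨hx, h4⟩
          · exact Or.inr ⟨hx, by linarith⟩
        · refine ((measure_mono ?_).trans_lt hfin2.lt_top).ne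
          rintro x (hx | hx)
          · exact hx.1
          · exact hx.1
      linarith
    have h2 := hl _ _ _ _ ((M - m) / 2) z r h1 hr hc hk hB
    refine ⟨m, M - l * ((M - m) / 2), le_rfl, ?_, ?_, ?_, ?_⟩
    · nlinarith
    · nlinarith
    · nlinarith
    · filter_upwards [h2] with x hx
      exact ⟨(hs.mem x).1, by linarith⟩

theorem hch (hh : HarnStatement) : HchStatement := by
  intro n p μ a α β U K z₀ hop hU hUc hz₀ hK hKU
  obtain ⟨H, hH1, hH⟩ := hh n p μ a α β hop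
  -- local comparison
  have hloc : ∀ z ∈ U, ∃ r > 0, ∀ u : E n → ℝ, Harm μ p a U u → (∀ x ∈ U, 0 ≤ u x) →
      ∀ x ∈ closedBall z r, ∀ y ∈ closedBall z r, u x ≤ H * u y := by
    intro z hz
    obtain ⟨ε, hε, hb⟩ := Metric.isOpen_iff.1 hU z hz
    refine ⟨ε / 128, by positivity, fun u hu h0 => ?_⟩
    have h1 : closedBall z (64 * (ε / 128)) ⊆ U :=
      (closedBall_subset_ball (by linarith)).trans hb
    exact hH U u z (ε / 128) hU hu (by positivity) h1 fun x hx => h0 x (h1 hx)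
  let S : Set (E n) := {z | z ∈ U ∧ ∃ C : ℝ, 1 ≤ C ∧ ∀ u : E n → ℝ, Harm μ p a U u →
    (∀ x ∈ U, 0 ≤ u x) → u z ≤ C * u z₀}
  have hSo : IsOpen S := by
    rw [Metric.isOpen_iff]
    rintro z ⟨hz, C, hC1, hC⟩
    obtain ⟨r, hr, h1⟩ := hloc z hz
    obtain ⟨ε, hε, hb⟩ := Metric.isOpen_iff.1 hU z hz
    refine ⟨min r ε, lt_min hr hε, fun x hx => ⟨hb (ball_subset_ball (min_le_right _ _) hx),
      H * C, one_le_mul_of_one_le_of_one_le hH1 hC1, fun u hu h0 => ?_⟩⟩
    have h2 := h1 u hu h0 x (ball_subset_closedBall (ball_subset_ball (min_le_left _ _) hx)) z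
      (mem_closedBall_self hr.le)
    have h3 := hC u hu h0
    calc u x ≤ H * u z := h2
      _ ≤ H * (C * u z₀) := mul_le_mul_of_nonneg_left h3 (by linarith)
      _ = H * C * u z₀ := by ring
  have hTo : IsOpen (U \ S) := by
    rw [Metric.isOpen_iff]
    rintro z ⟨hz, hzS⟩
    obtain ⟨r, hr, h1⟩ := hloc z hz
    obtain ⟨ε, hε, hb⟩ := Metric.isOpen_iff.1 hU z hz
    refine ⟨min r ε, lt_min hr hε, fun x hx => ⟨hb (ball_subset_ball (min_le_right _ _) hx),
      ?_⟩⟩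
    rintro ⟨-, C, hC1, hC⟩
    refine hzS ⟨hz, H * C, one_le_mul_of_one_le_of_one_le hH1 hC1, fun u hu h0 => ?_⟩
    have h2 := h1 u hu h0 z (mem_closedBall_self hr.le) x
      (ball_subset_closedBall (ball_subset_ball (min_le_left _ _) hx))
    have h3 := hC u hu h0
    calc u z ≤ H * u x := h2
      _ ≤ H * (C * u z₀) := mul_le_mul_of_nonneg_left h3 (by linarith)
      _ = H * C * u z₀ := by ring
  have hz₀S : z₀ ∈ S := ⟨hz₀, 1, le_rfl, fun u _ _ => by rw [one_mul]⟩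
  have hall : ∀ z ∈ U, z ∈ S := by
    intro z hz
    by_contra hzS
    obtain ⟨x, -, hx1, hx2⟩ := hUc S (U \ S) hSo hTo (fun x hx => by
      by_cases h : x ∈ S
      · exact Or.inl h
      · exact Or.inr ⟨hx, h⟩) ⟨z₀, hz₀, hz₀S⟩ ⟨z, hz, hz, hzS⟩
    exact hx2.2 hx1
  refine hK.induction_on (p := fun T => ∃ C : ℝ, 1 ≤ C ∧ ∀ u : E n → ℝ, Harm μ p a U u →
    (∀ x ∈ U, 0 ≤ u x) → ∀ z ∈ T, u z ≤ C * u z₀) ?_ ?_ ?_ ?_
  · exact ⟨1, le_rfl, fun u _ _ z hz => hz.elim⟩
  · rintro s t hst ⟨C, hC1, hC⟩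
    exact ⟨C, hC1, fun u hu h0 z hz => hC u hu h0 z (hst hz)⟩
  · rintro s t ⟨C, hC1, hC⟩ ⟨C', hC1', hC'⟩
    refine ⟨max C C', hC1.trans (le_max_left _ _), fun u hu h0 z hz => ?_⟩
    rcases hz with hz | hz
    · exact (hC u hu h0 z hz).trans
        (mul_le_mul_of_nonneg_right (le_max_left _ _) (h0 z₀ hz₀))
    · exact (hC' u hu h0 z hz).trans
        (mul_le_mul_of_nonneg_right (le_max_right _ _) (h0 z₀ hz₀))
  · intro z hz
    obtain ⟨-, C, hC1, hC⟩ := hall z (hKU hz)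
    obtain ⟨r, hr, h1⟩ := hloc z (hKU hz)
    refine ⟨closedBall z r, mem_nhdsWithin_of_mem_nhds (closedBall_mem_nhds z hr), H * C,
      one_le_mul_of_one_le_of_one_le hH1 hC1, fun u hu h0 x hx => ?_⟩
    have h2 := h1 u hu h0 x hx z (mem_closedBall_self hr.le)
    have h3 := hC u hu h0
    calc u x ≤ H * u z := h2
      _ ≤ H * (C * u z₀) := mul_le_mul_of_nonneg_left h3 (by linarith)
      _ = H * C * u z₀ := by ring

theorem eqc (ho : OsccStatement) : EqcStatement := by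
  intro n p μ a α β U x₀ M ε hop hU hx₀ hε
  obtain ⟨c, hc0, hc1, hc⟩ := ho n p μ a α β hop
  obtain ⟨r, hr, hb⟩ := Metric.isOpen_iff.1 hU x₀ hx₀
  have hiter : ∀ u : E n → ℝ, Harm μ p a U u → (∀ x ∈ U, |u x| ≤ M) → ∀ k : ℕ,
      ∃ m' M' : ℝ, M' - m' ≤ (1 - c) ^ k * (2 * |M|) ∧
        ∀ x ∈ ball x₀ (r / 8 ^ k), u x ∈ Icc m' M' := by
    intro u hu hM k
    induction k with
    | zero =>
      refine ⟨-|M|, |M|, by simp; linarith, fun x hx => ?_⟩
      rw [pow_zero, div_one] at hx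
      have h1 := (hM x (hb hx)).trans (le_abs_self M)
      exact abs_le.1 h1
    | succ k ih =>
      obtain ⟨m', M', h1, h2⟩ := ih
      have h8 : (0 : ℝ) < 8 ^ k := by positivity
      have hsub : ball x₀ (r / 8 ^ k) ⊆ U := by
        refine (ball_subset_ball ?_).trans hb
        exact div_le_self hr.le (one_le_pow₀ (by norm_num))
      have hrk : 0 < r / 8 ^ (k + 1) := by positivity
      have hcl : closedBall x₀ (4 * (r / 8 ^ (k + 1))) ⊆ ball x₀ (r / 8 ^ k) := by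
        refine closedBall_subset_ball ?_
        have h3 : r / 8 ^ (k + 1) = (r / 8 ^ k) / 8 := by
          rw [pow_succ]
          field_simp
        have h4 : 0 < r / 8 ^ k := by positivity
        rw [h3]
        linarith
      obtain ⟨m'', M'', -, -, h5, h6⟩ := hc (ball x₀ (r / 8 ^ k)) u m' M' x₀
        (r / 8 ^ (k + 1)) isOpen_ball (hu.mono hsub) hrk hcl h2
      refine ⟨m'', M'', h5.trans ?_, h6⟩
      calc (1 - c) * (M' - m') ≤ (1 - c) * ((1 - c) ^ k * (2 * |M|)) :=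
            mul_le_mul_of_nonneg_left h1 (by linarith)
        _ = (1 - c) ^ (k + 1) * (2 * |M|) := by ring
  obtain ⟨k, hk⟩ : ∃ k : ℕ, (1 - c) ^ k * (2 * |M|) ≤ ε := by
    have h1 : Tendsto (fun k : ℕ => (1 - c) ^ k * (2 * |M|)) atTop (𝓝 (0 * (2 * |M|))) :=
      (tendsto_pow_atTop_nhds_zero_of_lt_one (by linarith) (by linarith)).mul_const _
    rw [zero_mul] at h1
    obtain ⟨k, hk⟩ := (h1.eventually (gt_mem_nhds hε)).exists
    exact ⟨k, hk.le⟩
  refine ⟨r / 8 ^ k, by positivity, fun u hu hM x hx => ?_⟩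
  obtain ⟨m', M', h1, h2⟩ := hiter u hu hM k
  have h3 := h2 x hx
  have h4 := h2 x₀ (mem_ball_self (by positivity))
  rw [abs_le]
  constructor <;> linarith [h3.1, h3.2, h4.1, h4.2]

end Pool.Agent.Lib.MP_abd978_an.H72
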